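import Pool.Agent.Helper22.FF.Abs

/-!
# LDJ: linear disjointness of `k` and `F̄(u)` over `F(u)`
-/

set_option autoImplicit false
set_option linter.unusedSectionVars false

namespace Pool.Agent.Helper22.FF

open Pool.Agent.Helper14.BSC Polynomial Pool.Agent.Helper60.FF Pool.Agent.Helper18.FF3

section

variable {F k Ω : Type} [Field F] [CharZero F] [Field k] [Field Ω] [Algebra F Ω] [Algebra k Ω]
    [Algebra (RatFunc F) k] [IsAlgClosed Ω]

/-- the embedding of `F(u)` -/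
noncomputable def ldj_Phi (F k Ω : Type) [Field F] [Field k] [Field Ω] [Algebra k Ω]
    [Algebra (RatFunc F) k] : RatFunc F →+* Ω :=
  (algebraMap k Ω).comp (algebraMap (RatFunc F) k)

theorem ldj_Phi_inj : Function.Injective (ldj_Phi F k Ω) :=
  (ldj_Phi F k Ω).injective

theorem ldj_Phi_C (h : FU F k Ω) (a : F) : ldj_Phi F k Ω (RatFunc.C a) = algebraMap F Ω a :=
  (h.com a).symm

theorem ldj_comp_C (h : FU F k Ω) : (ldj_Phi F k Ω).comp RatFunc.C = algebraMap F Ω :=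
  RingHom.ext (ldj_Phi_C h)

theorem ldj_Phi_X : ldj_Phi F k Ω RatFunc.X = algebraMap k Ω (uk F k) := rfl

theorem ldj_algMap (p : F[X]) :
    algebraMap F[X] (RatFunc F) p = eval₂ RatFunc.C RatFunc.X p := by
  have : (algebraMap F[X] (RatFunc F)) = eval₂RingHom RatFunc.C RatFunc.X := by
    apply Polynomial.ringHom_ext
    · intro a
      simp
    · simp
  rw [this]
  rfl

theorem ldj_Phi_poly (h : FU F k Ω) (p : F[X]) :
    ldj_Phi F k Ω (algebraMap F[X] (RatFunc F) p) =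
      eval₂ (algebraMap F Ω) (algebraMap k Ω (uk F k)) p := by
  rw [ldj_algMap, Polynomial.hom_eval₂, ldj_comp_C h, ldj_Phi_X]

theorem ldj_trans (h : FU F k Ω) :
    Transcendental (Acl F Ω) (algebraMap k Ω (uk F k)) := by
  intro hal
  have h1 : IsAlgebraic F (algebraMap k Ω (uk F k)) := by
    have := hal.restrictScalars F
    exact this
  obtain ⟨p, hp, hp0⟩ := h1
  have h2 : ldj_Phi F k Ω (algebraMap F[X] (RatFunc F) p) = 0 := by
    rw [ldj_Phi_poly h, ← aeval_def]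
    exact hp0
  have h3 : algebraMap F[X] (RatFunc F) p = 0 := ldj_Phi_inj (by rw [h2, map_zero])
  exact hp ((FaithfulSMul.algebraMap_injective F[X] (RatFunc F)) (by rw [h3, map_zero]))

/-- the embedding of `F` -/
noncomputable def ldj_kap (F k : Type) [Field F] [Field k] [Algebra (RatFunc F) k] : F →+* k :=
  (algebraMap (RatFunc F) k).comp RatFunc.C

theorem ldj_kap_comp (h : FU F k Ω) : (algebraMap k Ω).comp (ldj_kap F k) = algebraMap F Ω :=
  RingHom.ext fun a => (h.com a).symm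

theorem ldj_alg (h : FU F k Ω) {x : Ω} (hx : IsAlgebraic F x) : x ∈ Acl k Ω := by
  obtain ⟨p, hp, hp0⟩ := hx
  refine (mem_algebraicClosure_iff).2 ⟨p.map (ldj_kap F k), ?_, ?_⟩
  · rw [Ne, Polynomial.map_eq_zero]
    exact hp
  · rw [aeval_def, Polynomial.eval₂_map, ldj_kap_comp h, ← aeval_def]
    exact hp0

/-- the inclusion of the algebraic closures -/
noncomputable def ldj_i1 (h : FU F k Ω) : Acl F Ω →+* Acl k Ω :=
  (algebraMap (Acl F Ω) Ω).codRestrict (Acl k Ω)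
    (fun x => ldj_alg h (mem_algebraicClosure_iff.1 x.2))

theorem ldj_i1_coe (h : FU F k Ω) (x : Acl F Ω) : ((ldj_i1 h x : Acl k Ω) : Ω) = (x : Ω) := rfl

/-- the element `u` in the algebraic closure -/
noncomputable def ldj_u (F k Ω : Type) [Field F] [Field k] [Field Ω] [Algebra k Ω]
    [Algebra (RatFunc F) k] : Acl k Ω := algebraMap k (Acl k Ω) (uk F k)

theorem ldj_u_coe : ((ldj_u F k Ω : Acl k Ω) : Ω) = algebraMap k Ω (uk F k) := rfl

theorem ldj_fix_F (h : FU F k Ω) (g : GG k Ω) (a : F) :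
    g (ldj_i1 h (algebraMap F (Acl F Ω) a)) = ldj_i1 h (algebraMap F (Acl F Ω) a) := by
  have h1 : ldj_i1 h (algebraMap F (Acl F Ω) a) = algebraMap k (Acl k Ω) (ldj_kap F k a) := by
    apply Subtype.ext
    exact h.com a
  rw [h1]
  exact g.commutes _

/-- the action on `F̄` -/
theorem ldj_gF_mem (h : FU F k Ω) (g : GG k Ω) (x : Acl F Ω) :
    ((g (ldj_i1 h x) : Acl k Ω) : Ω) ∈ Acl F Ω := by
  obtain ⟨p, hp, hp0⟩ := mem_algebraicClosure_iff.1 x.2
  refine mem_algebraicClosure_iff.2 ⟨p, hp, ?_⟩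
  have h1 : eval₂ ((ldj_i1 h).comp (algebraMap F (Acl F Ω))) (ldj_i1 h x) p = 0 := by
    apply Subtype.ext
    have h2 := Polynomial.hom_eval₂ p ((ldj_i1 h).comp (algebraMap F (Acl F Ω)))
      (algebraMap (Acl k Ω) Ω) (ldj_i1 h x)
    have h3 : (algebraMap (Acl k Ω) Ω).comp ((ldj_i1 h).comp (algebraMap F (Acl F Ω))) =
        algebraMap F Ω := RingHom.ext fun a => rfl
    rw [h3] at h2
    exact h2.trans hp0
  have h4 := congrArg (g : Acl k Ω → Acl k Ω) h1
  have h5 := Polynomial.hom_eval₂ p ((ldj_i1 h).comp (algebraMap F (Acl F Ω)))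
      (g : Acl k Ω →+* Acl k Ω) (ldj_i1 h x)
  have h6 : (g : Acl k Ω →+* Acl k Ω).comp ((ldj_i1 h).comp (algebraMap F (Acl F Ω))) =
      (ldj_i1 h).comp (algebraMap F (Acl F Ω)) := RingHom.ext fun a => ldj_fix_F h g a
  rw [h6] at h5
  have h7 : eval₂ ((ldj_i1 h).comp (algebraMap F (Acl F Ω))) (g (ldj_i1 h x)) p = 0 := by
    rw [map_zero] at h4
    exact h5.symm.trans h4
  have h8 := Polynomial.hom_eval₂ p ((ldj_i1 h).comp (algebraMap F (Acl F Ω)))
      (algebraMap (Acl k Ω) Ω) (g (ldj_i1 h x))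
  have h3 : (algebraMap (Acl k Ω) Ω).comp ((ldj_i1 h).comp (algebraMap F (Acl F Ω))) =
        algebraMap F Ω := RingHom.ext fun a => rfl
  rw [h3, h7, map_zero] at h8
  exact h8.symm

noncomputable def ldj_gF (h : FU F k Ω) (g : GG k Ω) : Acl F Ω →+* Acl F Ω :=
  ((algebraMap (Acl k Ω) Ω).comp ((g : Acl k Ω →+* Acl k Ω).comp (ldj_i1 h))).codRestrict (Acl F Ω)
    (fun x => ldj_gF_mem h g x)

theorem ldj_gF_i1 (h : FU F k Ω) (g : GG k Ω) (x : Acl F Ω) :
    ldj_i1 h (ldj_gF h g x) = g (ldj_i1 h x) := Subtype.ext rfl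

/-- evaluation at `u` -/
noncomputable def ldj_E (h : FU F k Ω) : (Acl F Ω)[X] →+* Acl k Ω :=
  eval₂RingHom (ldj_i1 h) (ldj_u F k Ω)

theorem ldj_E_coe (h : FU F k Ω) (r : (Acl F Ω)[X]) :
    ((ldj_E h r : Acl k Ω) : Ω) = aeval (algebraMap k Ω (uk F k)) r := by
  have h2 := Polynomial.hom_eval₂ r (ldj_i1 h) (algebraMap (Acl k Ω) Ω) (ldj_u F k Ω)
  have h3 : (algebraMap (Acl k Ω) Ω).comp (ldj_i1 h) = algebraMap (Acl F Ω) Ω :=
    RingHom.ext fun a => rfl
  rw [h3] at h2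
  rw [aeval_def]
  exact h2

theorem ldj_E_inj (h : FU F k Ω) : Function.Injective (ldj_E h) := by
  rw [injective_iff_map_eq_zero]
  intro r hr
  have h1 : aeval (algebraMap k Ω (uk F k)) r = 0 := by
    rw [← ldj_E_coe h, hr]
    rfl
  exact (transcendental_iff.1 (ldj_trans h)) r h1

theorem ldj_E_g (h : FU F k Ω) (g : GG k Ω) (r : (Acl F Ω)[X]) :
    g (ldj_E h r) = ldj_E h (r.map (ldj_gF h g)) := by
  have h2 := Polynomial.hom_eval₂ r (ldj_i1 h) (g : Acl k Ω →+* Acl k Ω) (ldj_u F k Ω)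
  have h3 : (g : Acl k Ω →+* Acl k Ω) (ldj_u F k Ω) = ldj_u F k Ω := g.commutes _
  have h4 : (g : Acl k Ω →+* Acl k Ω).comp (ldj_i1 h) = (ldj_i1 h).comp (ldj_gF h g) :=
    RingHom.ext fun a => (ldj_gF_i1 h g a).symm
  rw [h3, h4, ← Polynomial.eval₂_map] at h2
  exact h2

theorem ldj_fixed [CharZero k] (x : Acl k Ω) (hx : ∀ g : GG k Ω, g x = x) :
    ∃ y : k, algebraMap k (Acl k Ω) y = x := by
  have : IsGalois k (Acl k Ω) := IsAlgClosure.isGalois k (Acl k Ω)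
  exact (InfiniteGalois.mem_range_algebraMap_iff_fixed x).2 hx

/-- elements of `F̄` fixed by everything are in `F` -/
theorem ldj_fixed_F [CharZero k] (h : FU F k Ω) (a : Acl F Ω)
    (ha : ∀ g : GG k Ω, ldj_gF h g a = a) : ∃ b : F, algebraMap F (Acl F Ω) b = a := by
  obtain ⟨y, hy⟩ := ldj_fixed (ldj_i1 h a) (fun g => by rw [← ldj_gF_i1, ha g])
  have hy' : algebraMap k Ω y = (a : Ω) := by
    have := congrArg (fun z : Acl k Ω => (z : Ω)) hy
    exact this
  obtain ⟨p, hp, hp0⟩ := mem_algebraicClosure_iff.1 a.2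
  have h1 : eval₂ ((algebraMap (RatFunc F) k).comp RatFunc.C) y p = 0 := by
    apply (algebraMap k Ω).injective
    rw [Polynomial.hom_eval₂, map_zero, hy']
    have h2 := ldj_kap_comp h
    unfold ldj_kap at h2
    rw [h2, ← aeval_def]
    exact hp0
  obtain ⟨b, hb⟩ := h.cl y ⟨p, hp, h1⟩
  refine ⟨b, Subtype.ext ?_⟩
  rw [← hy', hb]
  exact h.com b

/-- the field `F̄(u)` -/
noncomputable abbrev ldj_K (F k Ω : Type) [Field F] [Field k] [Field Ω] [Algebra F Ω] [Algebra k Ω]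
    [Algebra (RatFunc F) k] : IntermediateField (Acl F Ω) Ω :=
  IntermediateField.adjoin (Acl F Ω) {algebraMap k Ω (uk F k)}

theorem ldj_K_rep (h : FU F k Ω) (c : ldj_K F k Ω) :
    ∃ A B : (Acl F Ω)[X], B ≠ 0 ∧ (c : Ω) * ldj_E h B = ldj_E h A := by
  obtain ⟨r, s, hrs⟩ := (IntermediateField.mem_adjoin_simple_iff (Acl F Ω) (c : Ω)).1 c.2
  by_cases hs : s = 0
  · refine ⟨0, 1, one_ne_zero, ?_⟩
    rw [hrs, hs]
    simp
  · refine ⟨r, s, hs, ?_⟩
    have h1 : ((ldj_E h s : Acl k Ω) : Ω) ≠ 0 := by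
      intro h0
      have h2 : ldj_E h s = 0 := Subtype.ext h0
      exact hs (ldj_E_inj h (by rw [h2, map_zero]))
    rw [ldj_E_coe] at h1
    rw [ldj_E_coe, ldj_E_coe, hrs]
    field_simp

theorem ldj_K_alg (h : FU F k Ω) (c : ldj_K F k Ω) : (c : Ω) ∈ Acl k Ω := by
  obtain ⟨A, B, hB, hAB⟩ := ldj_K_rep h c
  have h1 : ((ldj_E h B : Acl k Ω) : Ω) ≠ 0 := by
    intro h0
    have h2 : ldj_E h B = 0 := Subtype.ext h0
    exact hB (ldj_E_inj h (by rw [h2, map_zero]))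
  have h3 : (c : Ω) = (ldj_E h A : Ω) / (ldj_E h B : Ω) := by
    rw [← hAB]
    field_simp
  rw [h3]
  exact (Acl k Ω).div_mem (ldj_E h A).2 (ldj_E h B).2

noncomputable def ldj_i2 (h : FU F k Ω) : ldj_K F k Ω →+* Acl k Ω :=
  (algebraMap (ldj_K F k Ω) Ω).codRestrict (Acl k Ω) (fun c => ldj_K_alg h c)

theorem ldj_rep' (h : FU F k Ω) (c : ldj_K F k Ω) :
    ∃ A B : (Acl F Ω)[X], B ≠ 0 ∧ ldj_i2 h c * ldj_E h B = ldj_E h A := by
  obtain ⟨A, B, hB, hAB⟩ := ldj_K_rep h c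
  exact ⟨A, B, hB, Subtype.ext hAB⟩

theorem ldj_monic (h : FU F k Ω) (x : Acl k Ω) (A B : (Acl F Ω)[X]) (hB : B ≠ 0)
    (hAB : x * ldj_E h B = ldj_E h A) :
    ∃ A' B' : (Acl F Ω)[X], B'.Monic ∧ B'.natDegree = B.natDegree ∧
      x * ldj_E h B' = ldj_E h A' := by
  have hl : B.leadingCoeff ≠ 0 := by rwa [Ne, leadingCoeff_eq_zero]
  refine ⟨A * C (B.leadingCoeff⁻¹), B * C (B.leadingCoeff⁻¹), monic_mul_leadingCoeff_inv hB, ?_, ?_⟩
  · rw [natDegree_mul_C (inv_ne_zero hl)]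
  · rw [map_mul, map_mul, ← mul_assoc, hAB]

theorem ldj_inK (h : FU F k Ω) (x : Acl k Ω) (A B : (Acl F Ω)[X]) (hB : B ≠ 0)
    (hAB : x * ldj_E h B = ldj_E h A) : (x : Ω) ∈ ldj_K F k Ω := by
  refine (IntermediateField.mem_adjoin_simple_iff (Acl F Ω) (x : Ω)).2 ⟨A, B, ?_⟩
  have h1 : ((ldj_E h B : Acl k Ω) : Ω) ≠ 0 := by
    intro h0
    have h2 : ldj_E h B = 0 := Subtype.ext h0
    exact hB (ldj_E_inj h (by rw [h2, map_zero]))
  have h3 : (x : Ω) * (ldj_E h B : Ω) = (ldj_E h A : Ω) :=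
    congrArg (fun z : Acl k Ω => (z : Ω)) hAB
  rw [← ldj_E_coe h, ← ldj_E_coe h, ← h3]
  field_simp

/-- fixed elements of `F̄(u)` are in `F(u)` -/
theorem ldj_fixed_K [CharZero k] (h : FU F k Ω) (c : ldj_K F k Ω)
    (hc : ∀ g : GG k Ω, g (ldj_i2 h c) = ldj_i2 h c) : ∃ y : RatFunc F, ldj_Phi F k Ω y = (c : Ω) := by
  classical
  have hex : ∃ m : ℕ, ∃ A B : (Acl F Ω)[X], B.Monic ∧ B.natDegree = m ∧
      ldj_i2 h c * ldj_E h B = ldj_E h A := by
    obtain ⟨A, B, hB, hAB⟩ := ldj_rep' h c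
    obtain ⟨A', B', h1, h2, h3⟩ := ldj_monic h _ A B hB hAB
    exact ⟨_, A', B', h1, rfl, h3⟩
  obtain ⟨A, B, hBm, hBd, hAB⟩ := Nat.find_spec hex
  have hg : ∀ g : GG k Ω, B.map (ldj_gF h g) = B ∧ A.map (ldj_gF h g) = A := by
    intro g
    have h1 : ldj_i2 h c * ldj_E h (B.map (ldj_gF h g)) = ldj_E h (A.map (ldj_gF h g)) := by
      rw [← ldj_E_g, ← ldj_E_g, ← hAB, map_mul, hc g]
    have h2 : ldj_i2 h c * ldj_E h (B - B.map (ldj_gF h g)) =
        ldj_E h (A - A.map (ldj_gF h g)) := by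
      rw [map_sub, map_sub, mul_sub, hAB, h1]
    have hD : B - B.map (ldj_gF h g) = 0 := by
      by_contra hne
      obtain ⟨A', B', h3, h4, h5⟩ := ldj_monic h _ _ _ hne h2
      have h6 : (B.map (ldj_gF h g)).natDegree = B.natDegree := natDegree_map _
      have h7 : (B - B.map (ldj_gF h g)).natDegree < B.natDegree := by
        have h8 : (B - B.map (ldj_gF h g)).degree < B.degree := by
          apply degree_sub_lt_left
          · rw [degree_map]
          · exact hBm.ne_zero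
          · rw [hBm.leadingCoeff, (hBm.map _).leadingCoeff]
        exact natDegree_lt_natDegree hne h8
      have h9 := Nat.find_min' hex ⟨A', B', h3, rfl, h5⟩
      rw [h4] at h9
      rw [hBd] at h7
      omega
    refine ⟨(sub_eq_zero.1 hD).symm, ?_⟩
    rw [hD, map_zero, mul_zero] at h2
    have h10 : A - A.map (ldj_gF h g) = 0 := ldj_E_inj h (by rw [← h2, map_zero])
    exact (sub_eq_zero.1 h10).symm
  have hlift : ∀ Q : (Acl F Ω)[X], (∀ g : GG k Ω, Q.map (ldj_gF h g) = Q) →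
      ∃ Q₀ : F[X], Q₀.map (algebraMap F (Acl F Ω)) = Q := by
    intro Q hQ
    have h1 : Q ∈ Polynomial.lifts (algebraMap F (Acl F Ω)) := by
      rw [Polynomial.lifts_iff_coeff_lifts]
      intro n
      obtain ⟨b, hb⟩ := ldj_fixed_F h (Q.coeff n) (fun g => by
        have := congrArg (fun z : (Acl F Ω)[X] => z.coeff n) (hQ g)
        simpa only [coeff_map] using this)
      exact ⟨b, hb⟩
    obtain ⟨Q₀, hQ₀⟩ := (Polynomial.mem_lifts _).1 h1
    exact ⟨Q₀, hQ₀⟩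
  obtain ⟨A₀, hA₀⟩ := hlift A (fun g => (hg g).2)
  obtain ⟨B₀, hB₀⟩ := hlift B (fun g => (hg g).1)
  have hphi : ∀ Q₀ : F[X], ((ldj_E h (Q₀.map (algebraMap F (Acl F Ω))) : Acl k Ω) : Ω) =
      ldj_Phi F k Ω (algebraMap F[X] (RatFunc F) Q₀) := by
    intro Q₀
    rw [ldj_E_coe, ldj_Phi_poly h, aeval_def, eval₂_map]
    rfl
  have h3 : (c : Ω) * (ldj_E h B : Ω) = (ldj_E h A : Ω) :=
    congrArg (fun z : Acl k Ω => (z : Ω)) hAB
  rw [← hA₀, ← hB₀, hphi, hphi] at h3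
  have hB₀' : B₀ ≠ 0 := by
    rintro rfl
    rw [Polynomial.map_zero] at hB₀
    exact hBm.ne_zero hB₀.symm
  have hne : ldj_Phi F k Ω (algebraMap F[X] (RatFunc F) B₀) ≠ 0 := by
    rw [_root_.map_ne_zero]
    intro h0
    exact hB₀' ((FaithfulSMul.algebraMap_injective F[X] (RatFunc F)) (by rw [h0, map_zero]))
  refine ⟨algebraMap F[X] (RatFunc F) A₀ / algebraMap F[X] (RatFunc F) B₀, ?_⟩
  rw [map_div₀, ← h3]
  field_simp

theorem ldj_Phi_mem (h : FU F k Ω) (x : RatFunc F) : ldj_Phi F k Ω x ∈ ldj_K F k Ω := by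
  refine (IntermediateField.mem_adjoin_simple_iff (Acl F Ω) _).2
    ⟨x.num.map (algebraMap F (Acl F Ω)), x.denom.map (algebraMap F (Acl F Ω)), ?_⟩
  have hphi : ∀ Q₀ : F[X], aeval (algebraMap k Ω (uk F k)) (Q₀.map (algebraMap F (Acl F Ω))) =
      ldj_Phi F k Ω (algebraMap F[X] (RatFunc F) Q₀) := by
    intro Q₀
    rw [ldj_Phi_poly h, aeval_def, eval₂_map]
    rfl
  rw [hphi, hphi, ← map_div₀, RatFunc.num_div_denom]

noncomputable def ldj_phiK (h : FU F k Ω) : RatFunc F →+* ldj_K F k Ω :=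
  (ldj_Phi F k Ω).codRestrict (ldj_K F k Ω) (fun x => ldj_Phi_mem h x)

theorem ldj_gK_mem (h : FU F k Ω) (g : GG k Ω) (c : ldj_K F k Ω) :
    ((g (ldj_i2 h c) : Acl k Ω) : Ω) ∈ ldj_K F k Ω := by
  obtain ⟨A, B, hB, hAB⟩ := ldj_rep' h c
  refine ldj_inK h _ (A.map (ldj_gF h g)) (B.map (ldj_gF h g)) ?_ ?_
  · rw [Ne, Polynomial.map_eq_zero]
    exact hB
  · rw [← ldj_E_g, ← ldj_E_g, ← hAB, map_mul]

noncomputable def ldj_gK (h : FU F k Ω) (g : GG k Ω) : ldj_K F k Ω →+* ldj_K F k Ω :=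
  ((algebraMap (Acl k Ω) Ω).comp ((g : Acl k Ω →+* Acl k Ω).comp (ldj_i2 h))).codRestrict
    (ldj_K F k Ω) (fun x => ldj_gK_mem h g x)

theorem ldj_gK_i2 (h : FU F k Ω) (g : GG k Ω) (x : ldj_K F k Ω) :
    ldj_i2 h (ldj_gK h g x) = g (ldj_i2 h x) := Subtype.ext rfl

end

theorem st_LDJ : ST_LDJ := by
  intro F k Ω _ _ _ _ _ _ _ _ _ h
  have : CharZero k := charZero_of_injective_ringHom (ldj_kap F k).injective
  refine ⟨ldj_trans h, ?_⟩
  intro θ hθ
  have hint : IsIntegral (RatFunc F) θ := Algebra.IsIntegral.isIntegral θ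
  have hfr : (minpoly (RatFunc F) θ).natDegree = Module.finrank (RatFunc F) k :=
    (Field.primitive_element_iff_minpoly_natDegree_eq (RatFunc F) θ).1 hθ
  rw [← hfr]
  have hcomp : (algebraMap (ldj_K F k Ω) Ω).comp (ldj_phiK h) = ldj_Phi F k Ω :=
    RingHom.ext fun x => rfl
  have hroot : ∀ P : (RatFunc F)[X], aeval (algebraMap k Ω θ) (P.map (ldj_phiK h)) =
      algebraMap k Ω (aeval θ P) := by
    intro P
    rw [aeval_def, eval₂_map, hcomp, aeval_def, Polynomial.hom_eval₂]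
    rfl
  have hmonP : ((minpoly (RatFunc F) θ).map (ldj_phiK h)).Monic := (minpoly.monic hint).map _
  have hrootP : aeval (algebraMap k Ω θ) ((minpoly (RatFunc F) θ).map (ldj_phiK h)) = 0 := by
    rw [hroot, minpoly.aeval, map_zero]
  have hintK : IsIntegral (ldj_K F k Ω) (algebraMap k Ω θ) := ⟨_, hmonP, by
    rw [← aeval_def]; exact hrootP⟩
  apply le_antisymm
  · have h1 := minpoly.min (ldj_K F k Ω) (algebraMap k Ω θ) hmonP hrootP
    have h2 := natDegree_le_natDegree h1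
    rwa [natDegree_map] at h2
  · set q := minpoly (ldj_K F k Ω) (algebraMap k Ω θ) with hq
    have hqm : q.Monic := minpoly.monic hintK
    have hfix : ∀ g : GG k Ω, q.map (ldj_gK h g) = q := by
      intro g
      have h1 : eval₂ (ldj_i2 h) (algebraMap k (Acl k Ω) θ) q = 0 := by
        apply Subtype.ext
        have h2 := Polynomial.hom_eval₂ q (ldj_i2 h) (algebraMap (Acl k Ω) Ω)
          (algebraMap k (Acl k Ω) θ)
        have h3 : (algebraMap (Acl k Ω) Ω).comp (ldj_i2 h) = algebraMap (ldj_K F k Ω) Ω :=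
          RingHom.ext fun a => rfl
        rw [h3] at h2
        have h4 : eval₂ (algebraMap (ldj_K F k Ω) Ω) (algebraMap k Ω θ) q = 0 :=
          minpoly.aeval (ldj_K F k Ω) (algebraMap k Ω θ)
        exact h2.trans h4
      have h5 := Polynomial.hom_eval₂ q (ldj_i2 h) (g : Acl k Ω →+* Acl k Ω)
        (algebraMap k (Acl k Ω) θ)
      have h6 : (g : Acl k Ω →+* Acl k Ω) (algebraMap k (Acl k Ω) θ) = algebraMap k (Acl k Ω) θ :=
        g.commutes _
      have h7 : (g : Acl k Ω →+* Acl k Ω).comp (ldj_i2 h) = (ldj_i2 h).comp (ldj_gK h g) :=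
        RingHom.ext fun a => (ldj_gK_i2 h g a).symm
      rw [h1, map_zero, h6, h7, ← eval₂_map] at h5
      have h8 : aeval (algebraMap k Ω θ) (q.map (ldj_gK h g)) = 0 := by
        have h2 := Polynomial.hom_eval₂ (q.map (ldj_gK h g)) (ldj_i2 h) (algebraMap (Acl k Ω) Ω)
          (algebraMap k (Acl k Ω) θ)
        have h3 : (algebraMap (Acl k Ω) Ω).comp (ldj_i2 h) = algebraMap (ldj_K F k Ω) Ω :=
          RingHom.ext fun a => rfl
        rw [h3, ← h5, map_zero] at h2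
        rw [aeval_def]
        exact h2.symm
      have h9 : q ∣ q.map (ldj_gK h g) := minpoly.dvd _ _ h8
      exact eq_of_monic_of_dvd_of_natDegree_le hqm (hqm.map _) h9 (by rw [natDegree_map])
    have hlift : q ∈ Polynomial.lifts (ldj_phiK h) := by
      rw [Polynomial.lifts_iff_coeff_lifts]
      intro n
      obtain ⟨y, hy⟩ := ldj_fixed_K h (q.coeff n) (fun g => by
        rw [← ldj_gK_i2]
        congr 1
        have := congrArg (fun z : (ldj_K F k Ω)[X] => z.coeff n) (hfix g)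
        simpa only [coeff_map] using this)
      exact ⟨y, Subtype.ext hy⟩
    obtain ⟨q₀, h1, h2, h3⟩ := Polynomial.lifts_and_natDegree_eq_and_monic hlift hqm
    have h4 : aeval θ q₀ = 0 := by
      apply (algebraMap k Ω).injective
      rw [← hroot, h1, map_zero]
      exact minpoly.aeval _ _
    have h5 := minpoly.min (RatFunc F) θ h3 h4
    have h6 := natDegree_le_natDegree h5
    rw [h2] at h6
    exact h6

end Pool.Agent.Helper22.FF
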